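import Mathlib
import Pool.Agent.H67.SD

namespace Pool.Agent.Results.MP_8e29f8_al.Counter

open Pool.Agent.H67.SD Subgroup

/-- arc `p → q` of the Sylow graph of `H`. -/
def Arc (H : Type) [Group H] (p q : ℕ) : Prop :=
  p.Prime ∧ q.Prime ∧ ∃ P : Sylow p H,
    q ∣ ((P : Subgroup H) ⊔ centralizer (P : Set H)).relIndex (normalizer (P : Set H))

/-- edge of the undirected Sylow graph of `H`. -/
def Edge (H : Type) [Group H] (p q : ℕ) : Prop := p ≠ q ∧ (Arc H p q ∨ Arc H q p)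

def Fn (X R : Type) := X → R

instance (X R : Type) [AddCommGroup R] : AddCommGroup (Fn X R) := inferInstanceAs (AddCommGroup (X → R))
instance (X R : Type) [Finite X] [Finite R] : Finite (Fn X R) := inferInstanceAs (Finite (X → R))

instance (X R K : Type) [AddCommGroup R] [Group K] [MulAction K X] : DistribMulAction K (Fn X R) where
  smul g f := fun x => f (g⁻¹ • x)
  one_smul f := by funext x; show f _ = f x; simp
  mul_smul a b f := by funext x; show f _ = f _; simp [mul_smul]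
  smul_zero _ := rfl
  smul_add _ _ _ := rfl

theorem smul_app {X R K : Type} [AddCommGroup R] [Group K] [MulAction K X] (g : K) (f : Fn X R) (x : X) :
    (g • f) x = f (g⁻¹ • x) := rfl

abbrev K := Equiv.Perm (Fin 5)
abbrev L0 := Aff (Fn (Fin 5) (ZMod 3)) K

theorem sum_smul (g : K) (f : Fn (Fin 5) (ZMod 3)) : ∑ i, (g • f) i = ∑ i, f i :=
  Equiv.sum_comp (g⁻¹ : K) f

def L : Subgroup L0 where
  carrier := {a | ∑ i, a.v i = 0}
  one_mem' := by show ∑ i : Fin 5, (0 : ZMod 3) = 0; simp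
  mul_mem' := by
    intro a b ha hb
    show ∑ i, (a.v i + (a.g • b.v) i) = 0
    rw [Finset.sum_add_distrib, sum_smul, ha, hb, add_zero]
  inv_mem' := by
    intro a ha
    show ∑ i, -((a.g⁻¹ • a.v) i) = 0
    rw [Finset.sum_neg_distrib, sum_smul, ha, neg_zero]

abbrev G := Aff (Fn L (ZMod 5)) L

def ρ : L →* K := proj.comp L.subtype
def π : G →* K := ρ.comp proj

theorem pow_ker {X K : Type} {n : ℕ} [Group K] [MulAction K X] (a : Aff (Fn X (ZMod n)) K)
    (h : a.g = 1) : a ^ n = 1 := by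
  have : ∀ k : ℕ, a ^ k = ⟨k • a.v, 1⟩ := by
    intro k
    induction k with
    | zero => ext <;> simp
    | succ k ih => rw [pow_succ, ih]; apply Aff.ext <;> simp [h, succ_nsmul]
  rw [this]
  apply Aff.ext
  · funext x
    show n • a.v x = 0
    simp
  · rfl

theorem pE : IsPGroup 3 ρ.ker := fun x => ⟨1, Subtype.ext (Subtype.ext (by
  simpa using pow_ker x.1.1 x.2))⟩

theorem pV : IsPGroup 5 (proj : G →* L).ker := fun x => ⟨1, Subtype.ext (by
  simpa using pow_ker x.1 x.2)⟩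

theorem comm_of {H : Type} [Group H] (N P : Subgroup H) [hN : N.Normal] (h : Disjoint N P) {x y : H}
    (hx : x ∈ N) (hn : x ∈ normalizer (P : Set H)) (hy : y ∈ P) : x * y = y * x := by
  have h1 : x * y * x⁻¹ * y⁻¹ ∈ P := mul_mem ((mem_normalizer_iff.1 hn y).1 hy) (inv_mem hy)
  have h2 : x * y * x⁻¹ * y⁻¹ ∈ N := by
    have := mul_mem hx (hN.conj_mem _ (inv_mem hx) y)
    simpa only [mul_assoc] using this
  have h3 := disjoint_def.1 h h2 h1
  rw [mul_inv_eq_one, mul_inv_eq_iff_eq_mul] at h3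
  exact h3

theorem π_surj : Function.Surjective π := fun k =>
  ⟨⟨0, ⟨⟨0, k⟩, by show ∑ i : Fin 5, (0 : ZMod 3) = 0; simp⟩⟩, rfl⟩

instance : Fact (Nat.Prime 5) := ⟨by norm_num⟩

theorem cardK : Nat.card K = 120 := by rw [Nat.card_perm]; simp [Nat.factorial]

theorem img {p : ℕ} [hp : Fact p.Prime] (h : (120 : ℕ).factorization p = 1) (P : Sylow p G) {x : G}
    (hx : x ∈ normalizer (P : Set G)) :
    ∃ y ∈ (P : Subgroup G), π y ≠ 1 ∧ π y ^ p = 1 ∧ ∃ i < p, π x * π y * (π x)⁻¹ = π y ^ i := by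
  have hc : Nat.card ((P : Subgroup G).map π) = p := by
    have := (P.mapSurjective π_surj).card_eq_multiplicity
    rwa [cardK, h, pow_one] at this
  haveI : Nontrivial ((P : Subgroup G).map π) := Finite.one_lt_card_iff_nontrivial.1 (hc.symm ▸ hp.out.one_lt)
  obtain ⟨⟨_, y, hy, rfl⟩, hz⟩ := exists_ne (1 : (P : Subgroup G).map π)
  have h1 : π y ^ p = 1 := by
    have := pow_card_eq_one' (G := (P : Subgroup G).map π) (x := ⟨π y, y, hy, rfl⟩)
    rw [hc] at this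
    exact congrArg Subtype.val this
  refine ⟨y, hy, fun h => hz (Subtype.ext h), h1, ?_⟩
  obtain ⟨n, hn⟩ := mem_powers_of_prime_card hc hz
    (g' := ⟨π (x * y * x⁻¹), _, (mem_normalizer_iff.1 hx y).1 hy, rfl⟩)
  refine ⟨n % p, Nat.mod_lt _ hp.out.pos, ?_⟩
  rw [← pow_eq_pow_mod n h1, ← map_inv, ← map_mul, ← map_mul]
  exact (congrArg Subtype.val hn).symm

theorem dec1 : ∀ a : K, a ^ 3 = 1 → ∀ b : K, b ^ 5 = 1 → b ≠ 1 → ∀ i < 5, a * b * a⁻¹ = b ^ i → a = 1 := by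
  decide +kernel

theorem dec2 : ∀ b : K, b ^ 5 = 1 → b ≠ 1 → ∀ f : Fin 5 → ZMod 3, ∑ i, f i = 0 →
    (∀ i, f (b⁻¹ i) = f i) → ∀ i, f i = 0 := by
  decide +kernel

theorem dec3 : ∀ a : K, a ^ 5 = 1 → ∀ b : K, b ^ 3 = 1 → b ≠ 1 → ∀ i < 3, a * b * a⁻¹ = b ^ i → a = 1 := by
  decide +kernel

theorem cop {H : Type} [Group H] {x : H} {m n : ℕ} (h1 : x ^ m = 1) (h2 : x ^ n = 1)
    (h : Nat.Coprime m n) : x = 1 :=
  orderOf_eq_one_iff.1 (Nat.eq_one_of_dvd_coprimes h (orderOf_dvd_of_pow_eq_one h1)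
    (orderOf_dvd_of_pow_eq_one h2))

theorem fac (p : ℕ) (hp : p.Prime) (h1 : p ∣ 120) (h2 : ¬ p ^ 2 ∣ 120) : (120 : ℕ).factorization p = 1 := by
  have a1 := (hp.dvd_iff_one_le_factorization (by norm_num)).1 h1
  have a2 := mt (hp.pow_dvd_iff_le_factorization (by norm_num)).2 h2
  omega

theorem no53 : ¬ Arc G 5 3 := by
  rintro ⟨-, -, P, h⟩
  obtain ⟨⟨x, hx⟩, ho⟩ := exists_prime_orderOf_dvd_card' 3 (h.trans (relIndex_dvd_card _ _))
  have h3 : x ^ 3 = 1 := congrArg Subtype.val (ho ▸ pow_orderOf_eq_one (⟨x, hx⟩ : normalizer (P : Set G)))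
  obtain ⟨y, hy, h1, h2, i, hi, e⟩ := img (fac 5 (by norm_num) (by norm_num) (by norm_num)) P hx
  have h4 : π x = 1 := dec1 _ (by rw [← map_pow, h3, map_one]) _ h2 h1 i hi e
  have h5 := comm_of ρ.ker ((P : Subgroup G).map proj)
    (IsPGroup.disjoint_of_ne 3 5 (by norm_num) _ _ pE (P.isPGroup'.map _)) (x := proj x) (y := proj y) h4
    (le_normalizer_map _ ⟨x, hx, rfl⟩) ⟨y, hy, rfl⟩
  have h6 := congrArg (fun a : L => a.1.v) h5
  have h7 : x.g.1.g = 1 := h4
  simp only [proj_apply, coe_mul, mul_v, h7, one_smul] at h6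
  rw [add_comm] at h6
  have h8 := add_left_cancel h6
  have h9 : x.g = 1 := Subtype.ext (Aff.ext (funext (dec2 _ h2 h1 x.g.1.v x.g.2
    fun i => (congrFun h8 i).symm)) h7)
  have : x = 1 := cop h3 (pow_ker x h9) (by norm_num)
  subst this
  have : orderOf (1 : normalizer (P : Set G)) = 3 := ho
  simp at this

theorem no35 : ¬ Arc G 3 5 := by
  rintro ⟨-, -, Q, h⟩
  obtain ⟨R⟩ : Nonempty (Sylow 5 (normalizer (Q : Set G))) := inferInstance
  refine R.not_dvd_index (h.trans (index_dvd_of_le ?_))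
  rintro ⟨x, hx⟩ hR
  obtain ⟨k, hk⟩ := R.isPGroup' ⟨_, hR⟩
  have h3 : x ^ 5 ^ k = 1 := congrArg (fun a => a.1.1) hk
  obtain ⟨y, hy, h1, h2, i, hi, e⟩ := img (fac 3 (by norm_num) (by norm_num) (by norm_num)) Q hx
  have h5 : π x ^ 5 = 1 := by
    refine cop (m := 24) (n := 5 ^ k) ?_ ?_ (Nat.Coprime.pow_right _ (by norm_num))
    · rw [← pow_mul]
      show π x ^ 120 = 1
      rw [← cardK]; exact pow_card_eq_one'
    · rw [← pow_mul, mul_comm, pow_mul, ← map_pow, h3, map_one, one_pow]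
  have h4 : π x = 1 := dec3 _ h5 _ h2 h1 i hi e
  have h6 : proj x = 1 := by
    refine cop (m := 3) (n := 5 ^ k) (Subtype.ext (pow_ker x.g.1 h4)) ?_ (Nat.Coprime.pow_right _ (by norm_num))
    rw [← map_pow, h3, map_one]
  refine mem_subgroupOf.2 (mem_sup_right (mem_centralizer_iff.2 fun z hz => ?_))
  exact (comm_of (proj : G →* L).ker Q
    (IsPGroup.disjoint_of_ne 5 3 (by norm_num) _ _ pV Q.isPGroup') h6 hx hz).symm

def σ : π.ker →* L := proj.comp π.ker.subtype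

theorem idx : ∃ k, σ.ker.index = 3 ^ k := by
  rw [index_ker]
  refine IsPGroup.iff_card.1 (pE.to_le ?_)
  rintro _ ⟨x, rfl⟩
  exact x.2

theorem yes : Arc π.ker 5 3 := by
  obtain ⟨k, hk⟩ := idx
  have hp : IsPGroup 5 σ.ker := fun x => ⟨1, Subtype.ext (Subtype.ext (by
    simpa using pow_ker x.1.1 x.2))⟩
  have hi : ¬ 5 ∣ σ.ker.index := by
    rw [hk]; intro h
    have := (by norm_num : Nat.Prime 5).dvd_of_dvd_pow h
    omega
  refine ⟨by norm_num, by norm_num, hp.toSylow hi, ?_⟩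
  have e1 : normalizer ((hp.toSylow hi : Sylow 5 π.ker) : Set π.ker) = ⊤ :=
    normalizer_eq_top (H := σ.ker)
  have e2 : ((hp.toSylow hi : Sylow 5 π.ker) : Subgroup π.ker) ⊔
      centralizer ((hp.toSylow hi : Sylow 5 π.ker) : Set π.ker) = σ.ker := by
    refine sup_eq_left.2 fun a ha => ?_
    classical
    have h1 := mem_centralizer_iff.1 ha ⟨⟨fun z => if z = 1 then 1 else 0, 1⟩, rfl⟩ rfl
    have h2 := congrArg (fun a : π.ker => a.1.v) h1
    simp only [coe_mul, mul_v, one_smul] at h2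
    rw [add_comm] at h2
    have h3 := congrFun (add_left_cancel (G := Fn L (ZMod 5)) h2) a.1.g
    rw [smul_app] at h3
    by_contra h4
    have h5 : a.1.g ≠ 1 := h4
    simp [h5] at h3
  rw [e1, e2, relIndex_top_right, hk]
  refine dvd_pow_self _ ?_
  rintro rfl
  have h1 : (⟨⟨0, ⟨⟨![1, 2, 0, 0, 0], 1⟩, by show ∑ i : Fin 5, (![1, 2, 0, 0, 0] : Fin 5 → ZMod 3) i = 0; decide⟩⟩, rfl⟩ : π.ker) ∈ σ.ker := by
    rw [index_eq_one.1 hk]; trivial
  have h2 := congrArg (fun a : L => a.1.v 0) h1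
  revert h2
  show ¬ (1 : ZMod 3) = 0
  decide

theorem result : ∃ (G : Type) (_ : Group G) (A B : Subgroup G), Finite G ∧ A.Normal ∧ B.Normal ∧
    (∀ g : G, ∃ a ∈ A, ∃ b ∈ B, g = a * b) ∧ ∃ p q, Edge A p q ∧ ¬ Edge G p q :=
  ⟨G, inferInstance, π.ker, ⊤, inferInstance, inferInstance, inferInstance,
    fun g => ⟨1, one_mem _, g, trivial, (one_mul g).symm⟩, 5, 3, ⟨by norm_num, Or.inl yes⟩,
    fun h => h.2.elim no53 no35⟩

end Pool.Agent.Results.MP_8e29f8_al.Counter
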